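import Pool.Agent.KTK.Stmts2

/-!
# KTK part 2 (MP_b2962a_an), row EXI: exponentially Liouville vectors are not Brjuno vectors
-/

set_option autoImplicit false

namespace Pool.Agent.KTK.H66

open Pool.Agent.PRT

/-- **row EXI** -/
theorem exi (hndl : NdlStmt) : ExiStmt := by
  intro w c hpos hc hL hs
  have ht := hs.tendsto_atTop_zero
  rw [Metric.tendsto_atTop] at ht
  obtain ⟨n0, hn0⟩ := ht (c / 2) (by linarith)
  obtain ⟨q, a, b, hQ, hq⟩ := hL (2 ^ n0 + 1)
  have h2 : 1 ≤ 2 ^ n0 := Nat.one_le_two_pow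
  have hq1 : 1 < q := by omega
  obtain ⟨n, hn⟩ : ∃ n, n = Nat.clog 2 q := ⟨_, rfl⟩
  have hn1 : q ≤ 2 ^ n := by
    rw [hn]
    exact Nat.le_pow_clog one_lt_two q
  have hn2 : 2 ^ n < 2 * q := by
    have h3 := Nat.pow_pred_clog_lt_self one_lt_two hq1
    have h4 : n ≠ 0 := by
      rintro rfl
      rw [pow_zero] at hn1
      omega
    rw [← hn] at h3
    have h5 : 2 ^ n = 2 * 2 ^ n.pred := by
      rw [← pow_succ']
      congr 1
      exact (Nat.succ_pred_eq_of_ne_zero h4).symm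
    omega
  have hnn : n0 ≤ n := by
    by_contra hcon
    have h3 : 2 ^ n ≤ 2 ^ n0 := Nat.pow_le_pow_right (by norm_num) (by omega)
    omega
  have h3 := hn0 n hnn
  rw [Real.dist_eq, sub_zero] at h3
  have hd0 : 0 < dl w n := by
    unfold dl
    rw [Finset.lt_inf'_iff]
    intro j hj
    exact hpos j (Finset.mem_Icc.1 hj).1
  have hd1 : dl w n ≤ Real.exp (-c * q) := by
    refine le_trans (Finset.inf'_le _ (Finset.mem_Icc.2 ⟨hq1.le, hn1⟩)) ?_
    exact ((hndl ((q : ℝ) • w)).1 a b).trans hq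
  have hlog : Real.log (dl w n) ≤ -c * q := by
    have := Real.log_le_log hd0 hd1
    rwa [Real.log_exp] at this
  have hp : (0 : ℝ) < 2 ^ n := by positivity
  have hn2' : (2 : ℝ) ^ n < 2 * q := by exact_mod_cast hn2
  have h4 : c / 2 ≤ -Real.log (dl w n) / 2 ^ n := by
    rw [le_div_iff₀ hp]
    have h5 : c / 2 * 2 ^ n ≤ c / 2 * (2 * q) := mul_le_mul_of_nonneg_left hn2'.le (by linarith)
    linarith
  exact absurd h3 (not_lt.2 (h4.trans (le_abs_self _)))

end Pool.Agent.KTK.H66
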