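import Pool.Agent.KTK.Stmts

/-!
# KTK (MP_b2962a_an), row QDR: second order Taylor bound
-/

set_option autoImplicit false
set_option maxSynthPendingDepth 3

namespace Pool.Agent.KTK.H66

open Pool.Agent.PRT
open scoped ContDiff

/-- a continuous periodic map is bounded -/
theorem per_bdd {W : Type} [NormedAddCommGroup W] {ψ : E → W} (hc : Continuous ψ) (hp : Per ψ) :
    ∃ C : ℝ, ∀ z, ‖ψ z‖ ≤ C := by
  have hK : IsCompact (Set.Icc (0 : ℝ) 1 ×ˢ Set.Icc (0 : ℝ) 1 : Set E) :=
    isCompact_Icc.prod isCompact_Icc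
  obtain ⟨C, hC⟩ := hK.exists_bound_of_continuousOn hc.continuousOn
  refine ⟨C, fun z => ?_⟩
  have h := hp ⌊z.1⌋ ⌊z.2⌋ (Int.fract z.1, Int.fract z.2)
  have e : ((Int.fract z.1, Int.fract z.2) : E) + iv ⌊z.1⌋ ⌊z.2⌋ = z := by
    unfold iv
    ext
    · exact Int.fract_add_floor z.1
    · exact Int.fract_add_floor z.2
  rw [e] at h
  rw [h]
  exact hC _ ⟨⟨Int.fract_nonneg _, (Int.fract_lt_one _).le⟩,
    ⟨Int.fract_nonneg _, (Int.fract_lt_one _).le⟩⟩

/-- the derivative of an equivariant map is periodic -/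
theorem per_of_eqv {g : E → E} (he : Eqv g) : Per (fderiv ℝ g) := by
  intro a b z
  have h : (fun x => g (x + iv a b)) = fun x => g x + iv a b := funext fun x => he a b x
  rw [← fderiv_comp_add_right, h, fderiv_add_const]

/-- the derivative of a periodic map is periodic -/
theorem per_fderiv {W : Type} [NormedAddCommGroup W] [NormedSpace ℝ W] {ψ : E → W} (hp : Per ψ) :
    Per (fderiv ℝ ψ) := by
  intro a b z
  have h : (fun x => ψ (x + iv a b)) = ψ := funext fun x => hp a b x
  rw [← fderiv_comp_add_right, h]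

/-- **row QDR** -/
theorem qdr : QdrStmt := by
  intro g hg he
  have s1 : ContDiff ℝ ∞ (fderiv ℝ g) := hg.fderiv_right (by simp)
  have s2 : ContDiff ℝ ∞ (fderiv ℝ (fderiv ℝ g)) := s1.fderiv_right (by simp)
  obtain ⟨C, hC⟩ := per_bdd s2.continuous (per_fderiv (per_of_eqv he))
  have hC0 : 0 ≤ C := (norm_nonneg _).trans (hC 0)
  have hL : ∀ x z, ‖fderiv ℝ g x - fderiv ℝ g z‖ ≤ C * ‖x - z‖ := fun x z =>
    Convex.norm_image_sub_le_of_norm_fderiv_le (s := Set.univ)
      (fun y _ => (s1.differentiable (by simp)).differentiableAt) (fun y _ => hC y) convex_univ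
      (Set.mem_univ z) (Set.mem_univ x)
  refine ⟨C + 1, by linarith, fun z h => ?_⟩
  have hb := Convex.norm_image_sub_le_of_norm_fderiv_le' (f := g) (φ := fderiv ℝ g z)
    (s := Metric.closedBall z ‖h‖) (x := z) (y := z + h) (C := C * ‖h‖)
    (fun y _ => (hg.differentiable (by simp)).differentiableAt)
    (fun y hy => (hL y z).trans (by
      rw [Metric.mem_closedBall, dist_eq_norm] at hy
      exact mul_le_mul_of_nonneg_left hy hC0)) (convex_closedBall z ‖h‖)
    (Metric.mem_closedBall_self (norm_nonneg h)) (by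
      rw [Metric.mem_closedBall, dist_eq_norm, add_sub_cancel_left])
  rw [add_sub_cancel_left] at hb
  refine hb.trans ?_
  have h2 : 0 ≤ ‖h‖ ^ 2 := by positivity
  nlinarith

end Pool.Agent.KTK.H66
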